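import Mathlib

/-!
The largest square contained in the unit cube of odd dimension `2 n + 1` has side
`√((8 n + 1) / 8)`, for every `n ≥ 1`.

Idea: if `u`, `v` are the two side vectors of the square, then `|u j| + |v j| ≤ 1`,
`∑ (u j ^ 2 - v j ^ 2) = 0`, `∑ 2 u j v j = 0`.  Put `x = u² - v²`, `y = 2 u v`, `ρ = u² + v²`.
The loss `∑ (1 - ρ j) = 2 n + 1 - 2 s²` is shown to be at least `3 / 4`, using that a signed sum of
an odd number of ones is not zero.
-/

set_option autoImplicit false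

open Finset

namespace Pool.Agent.Results.MP_befaea_co.OddSquare

/-- `Q` is an `m`-dimensional cube of edge `s` in `ℝ ^ N`: the image of `[0, s] ^ m` under an
affine isometric embedding of `ℝ ^ m` into `ℝ ^ N`. -/
def IsCube (m N : ℕ) (s : ℝ) (Q : Set (EuclideanSpace ℝ (Fin N))) : Prop :=
  ∃ φ : EuclideanSpace ℝ (Fin m) →ᵃⁱ[ℝ] EuclideanSpace ℝ (Fin N),
    Q = φ '' {x | ∀ i, 0 ≤ x i ∧ x i ≤ s}

/-- The unit cube `[0, 1] ^ N`. -/
def unitCube (N : ℕ) : Set (EuclideanSpace ℝ (Fin N)) := {x | ∀ j, 0 ≤ x j ∧ x j ≤ 1}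

/-- The edges `s ≥ 0` of the `m`-dimensional cubes contained in the unit cube of `ℝ ^ N`. -/
def edges (m N : ℕ) : Set ℝ := {s | 0 ≤ s ∧ ∃ Q, IsCube m N s Q ∧ Q ⊆ unitCube N}

/-- `f m N`: the largest edge of an `m`-dimensional cube inscribed in the unit cube of `ℝ ^ N`. -/
noncomputable def f (m N : ℕ) : ℝ := sSup (edges m N)

/-- parity: a sum of an odd number of signs is at least one in absolute value -/
theorem abs_sum_sign (n : ℕ) (ε : Fin (2 * n + 1) → ℤ) (hε : ∀ j, ε j = 1 ∨ ε j = -1) :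
    1 ≤ |∑ j, ε j| := by
  have h : (∑ j, ε j) % 2 = 1 := by
    have h1 : (∑ j, ε j) % 2 = (∑ j : Fin (2 * n + 1), (1 : ℤ)) % 2 := by
      rw [Finset.sum_int_mod, Finset.sum_int_mod (s := univ) (f := fun _ => (1 : ℤ))]
      congr 1
      refine Finset.sum_congr rfl fun j _ => ?_
      rcases hε j with h | h <;> rw [h]; rfl
    rw [h1]
    simp
  have h0 : (∑ j, ε j) ≠ 0 := by
    intro h0
    rw [h0] at h
    simp at h
  exact Int.one_le_abs h0

/-- The key inequality. -/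
theorem core (n : ℕ) (x y ρ : Fin (2 * n + 1) → ℝ) (h1 : ∀ j, ρ j ^ 2 = x j ^ 2 + y j ^ 2)
    (h2 : ∀ j, ρ j + |y j| ≤ 1) (h3 : ∀ j, 0 ≤ ρ j) (hx : ∑ j, x j = 0) (hy : ∑ j, y j = 0) :
    3 / 4 ≤ ∑ j, (1 - ρ j) := by
  classical
  by_contra hlt
  push Not at hlt
  have hyρ : ∀ j, |y j| ≤ ρ j := fun j =>
    abs_le_of_sq_le_sq (by rw [h1 j]; nlinarith [sq_nonneg (x j)]) (h3 j)
  have hxρ : ∀ j, |x j| ≤ ρ j := fun j =>
    abs_le_of_sq_le_sq (by rw [h1 j]; nlinarith [sq_nonneg (y j)]) (h3 j)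
  have hρ1 : ∀ j, ρ j ≤ 1 := fun j => by linarith [h2 j, abs_nonneg (y j)]
  have hδ0 : ∀ j, 0 ≤ 1 - |x j| := fun j => by linarith [hxρ j, hρ1 j]
  -- the loss dominates `(1 - x²)/2`
  have hL : ∀ j, (1 - |x j|) - (1 - |x j|) ^ 2 / 2 ≤ 1 - ρ j := by
    intro j
    have e : (ρ j + |y j|) * (ρ j - |y j|) = |x j| ^ 2 := by
      rw [sq_abs]
      have := h1 j
      have h4 := sq_abs (y j)
      nlinarith
    nlinarith [mul_nonneg (sub_nonneg.mpr (h2 j))
      (by linarith [h2 j, abs_nonneg (y j), hyρ j] : (0 : ℝ) ≤ 1 - (ρ j - |y j|))]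
  have hy' : ∀ j, |y j| ≤ 1 - ρ j := fun j => by linarith [h2 j]
  -- the sum of the defects of the `x j` is at least one
  have hD : 1 ≤ ∑ j, (1 - |x j|) := by
    set ε : Fin (2 * n + 1) → ℤ := fun j => if 0 ≤ x j then 1 else -1 with hε
    have hε1 : ∀ j, ε j = 1 ∨ ε j = -1 := by
      intro j
      simp only [hε]
      split_ifs
      · exact Or.inl rfl
      · exact Or.inr rfl
    have habs : ∀ j, |(ε j : ℝ)| = 1 := by
      intro j
      rcases hε1 j with h | h <;> rw [h] <;> simp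
    have hεx : ∀ j, (ε j : ℝ) * (1 - |x j|) = ε j - x j := by
      intro j
      simp only [hε]
      split_ifs with h
      · rw [abs_of_nonneg h]; push_cast; ring
      · rw [abs_of_neg (not_le.mp h)]; push_cast; ring
    have e1 : ((∑ j, ε j : ℤ) : ℝ) = ∑ j, (ε j : ℝ) * (1 - |x j|) := by
      simp_rw [hεx]
      rw [Finset.sum_sub_distrib, hx]
      push_cast
      ring
    have h5 : (1 : ℝ) ≤ |((∑ j, ε j : ℤ) : ℝ)| := by
      have := abs_sum_sign n ε hε1
      exact_mod_cast this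
    rw [e1] at h5
    refine h5.trans ((Finset.abs_sum_le_sum_abs _ _).trans (le_of_eq ?_))
    refine Finset.sum_congr rfl fun j _ => ?_
    rw [abs_mul, habs, one_mul, abs_of_nonneg (hδ0 j)]
  by_cases hall : ∀ j, 1 - |x j| < 1 / 2
  · have : ∑ j, (3 / 4 * (1 - |x j|)) ≤ ∑ j, (1 - ρ j) := by
      refine Finset.sum_le_sum fun j _ => ?_
      nlinarith [hL j, hδ0 j, hall j]
    rw [← Finset.mul_sum] at this
    linarith
  · push Not at hall
    obtain ⟨i, hi⟩ := hall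
    have hsplit : ∀ g : Fin (2 * n + 1) → ℝ, ∑ j, g j = g i + ∑ j ∈ univ.erase i, g j := fun g =>
      (Finset.add_sum_erase _ _ (mem_univ i)).symm
    rw [hsplit] at hlt
    rw [hsplit] at hD hy
    set r := ∑ j ∈ univ.erase i, (1 - ρ j) with hr
    set D := ∑ j ∈ univ.erase i, (1 - |x j|) with hDdef
    set X := |x i| with hX
    have hX0 : 0 ≤ X := abs_nonneg _
    have hli : 3 / 8 ≤ 1 - ρ i := by
      have := hL i
      nlinarith
    have hr1 : r < 3 / 8 := by linarith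
    have hsmall : ∀ j ∈ univ.erase i, 1 - |x j| < 1 / 2 := by
      intro j hj
      by_contra hc
      push Not at hc
      have h6 : 1 - ρ j ≤ r :=
        Finset.single_le_sum (f := fun j => 1 - ρ j) (fun k _ => by linarith [hρ1 k]) hj
      have h7 := hL j
      have h8 := hδ0 j
      nlinarith [abs_nonneg (x j)]
    have hr2 : 3 / 4 * D ≤ r := by
      rw [hDdef, Finset.mul_sum]
      refine Finset.sum_le_sum fun j hj => ?_
      nlinarith [hL j, hδ0 j, hsmall j hj]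
    have hD0 : 0 ≤ D := Finset.sum_nonneg fun j _ => hδ0 j
    have hDX : X ≤ D := by linarith
    have hr3 : D - D ^ 2 / 2 ≤ r := by
      have h9 : ∑ j ∈ univ.erase i, (1 - |x j|) ^ 2 ≤ D ^ 2 := by
        rw [sq D]
        nth_rewrite 1 [hDdef]
        rw [Finset.sum_mul]
        refine Finset.sum_le_sum fun j hj => ?_
        rw [sq]
        refine mul_le_mul_of_nonneg_left ?_ (hδ0 j)
        exact Finset.single_le_sum (f := fun j => 1 - |x j|) (fun k _ => hδ0 k) hj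
      have h10 : ∑ j ∈ univ.erase i, ((1 - |x j|) - (1 - |x j|) ^ 2 / 2) ≤ r :=
        Finset.sum_le_sum fun j _ => hL j
      rw [Finset.sum_sub_distrib, ← Finset.sum_div] at h10
      linarith
    have hyi : |y i| ≤ r := by
      have h11 : y i = -∑ j ∈ univ.erase i, y j := by linarith
      rw [h11, abs_neg]
      exact (Finset.abs_sum_le_sum_abs _ _).trans (Finset.sum_le_sum fun j _ => hy' j)
    have hyi2 : y i ^ 2 ≤ r ^ 2 := by
      rw [← sq_abs (y i)]
      exact pow_le_pow_left₀ (abs_nonneg _) hyi 2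
    have hρi : 1 / 4 + r < ρ i := by linarith
    have hr0 : 0 ≤ r := (abs_nonneg _).trans hyi
    have h12 : (1 / 4 + r) ^ 2 < ρ i ^ 2 := by
      apply pow_lt_pow_left₀ hρi (by linarith) (by norm_num)
    have h13 : x i ^ 2 = X ^ 2 := by rw [hX, sq_abs]
    rw [h1 i, h13] at h12
    have h14 : X - X ^ 2 / 2 ≤ r := by nlinarith
    have h15 : X ≤ 1 / 2 := by linarith
    nlinarith [mul_nonneg (sub_nonneg.mpr h15) hX0]

/-- The inequality for the two side vectors of a square. -/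
theorem core' (n : ℕ) (u v : Fin (2 * n + 1) → ℝ) (S : ℝ) (huv : ∀ j, |u j| + |v j| ≤ 1)
    (hu : ∑ j, u j ^ 2 = S) (hv : ∑ j, v j ^ 2 = S) (h : ∑ j, u j * v j = 0) :
    S ≤ n + 1 / 8 := by
  have key := core n (fun j => u j ^ 2 - v j ^ 2) (fun j => 2 * (u j * v j))
    (fun j => u j ^ 2 + v j ^ 2) (fun j => by ring) ?_ (fun j => by positivity) ?_ ?_
  · rw [Finset.sum_sub_distrib, Finset.sum_add_distrib, hu, hv] at key
    simp at key
    linarith
  · intro j
    have e : |2 * (u j * v j)| = 2 * (|u j| * |v j|) := by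
      rw [abs_mul, abs_mul, abs_of_pos (by norm_num : (0 : ℝ) < 2)]
    show u j ^ 2 + v j ^ 2 + |2 * (u j * v j)| ≤ 1
    rw [e, ← sq_abs (u j), ← sq_abs (v j)]
    have := huv j
    nlinarith [abs_nonneg (u j), abs_nonneg (v j)]
  · rw [Finset.sum_sub_distrib, hu, hv, sub_self]
  · rw [← Finset.mul_sum, h, mul_zero]

/-- upper bound -/
theorem upper (n : ℕ) {s : ℝ} (hs : s ∈ edges 2 (2 * n + 1)) : s ≤ Real.sqrt ((8 * n + 1) / 8) := by
  obtain ⟨hs0, Q, ⟨φ, rfl⟩, hQ⟩ := hs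
  have hmem : ∀ a b : ℝ, 0 ≤ a → a ≤ s → 0 ≤ b → b ≤ s →
      ∀ j, 0 ≤ φ (!₂[a, b]) j ∧ φ (!₂[a, b]) j ≤ 1 := by
    intro a b ha ha' hb hb'
    refine hQ ⟨!₂[a, b], ?_, rfl⟩
    intro i
    fin_cases i
    · exact ⟨ha, ha'⟩
    · exact ⟨hb, hb'⟩
  set L := φ.linearIsometry with hLdef
  have hφ : ∀ x : EuclideanSpace ℝ (Fin 2), φ x = L x + φ 0 := by
    intro x
    have := φ.map_vadd 0 x
    simpa using this
  set u := L (!₂[s, 0]) with hu
  set v := L (!₂[0, s]) with hv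
  have hun : ‖u‖ ^ 2 = s ^ 2 := by
    rw [hu, L.norm_map, EuclideanSpace.norm_sq_eq, Fin.sum_univ_two]
    simp
  have hvn : ‖v‖ ^ 2 = s ^ 2 := by
    rw [hv, L.norm_map, EuclideanSpace.norm_sq_eq, Fin.sum_univ_two]
    simp
  have huv : inner ℝ u v = 0 := by
    rw [hu, hv, L.inner_map_map]
    simp [PiLp.inner_apply, Fin.sum_univ_two]
  have huvL : L (!₂[s, s]) = u + v := by
    rw [hu, hv, ← map_add]
    congr 1
    ext i
    fin_cases i <;> simp
  have key := core' n (fun j => u j) (fun j => v j) (s ^ 2) ?_ ?_ ?_ ?_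
  · apply Real.le_sqrt_of_sq_le
    linarith
  · intro j
    have h00 := hmem 0 0 le_rfl hs0 le_rfl hs0 j
    have h10 := hmem s 0 hs0 le_rfl le_rfl hs0 j
    have h01 := hmem 0 s le_rfl hs0 hs0 le_rfl j
    have h11 := hmem s s hs0 le_rfl hs0 le_rfl j
    have z : (!₂[(0 : ℝ), 0] : EuclideanSpace ℝ (Fin 2)) = 0 := by
      ext i
      fin_cases i <;> simp
    rw [z] at h00
    rw [hφ, huvL] at h11
    rw [hφ, ← hu] at h10
    rw [hφ, ← hv] at h01
    simp only [PiLp.add_apply] at h11 h10 h01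
    show |u j| + |v j| ≤ 1
    rcases abs_cases (u j) with ⟨e1, _⟩ | ⟨e1, _⟩ <;> rcases abs_cases (v j) with ⟨e2, _⟩ | ⟨e2, _⟩ <;>
      rw [e1, e2] <;> linarith [h00.1, h00.2, h10.1, h10.2, h01.1, h01.2, h11.1, h11.2]
  · rw [← hun, EuclideanSpace.norm_sq_eq]
    simp
  · rw [← hvn, EuclideanSpace.norm_sq_eq]
    simp
  · rw [← huv, PiLp.inner_apply]
    refine Finset.sum_congr rfl fun j _ => ?_
    simp [mul_comm]

/-- data for a square of squared side `S` in the unit cube of dimension `N` -/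
def Good (N : ℕ) (S : ℝ) : Prop :=
  ∃ u v p : Fin N → ℝ, ∑ j, u j ^ 2 = S ∧ ∑ j, v j ^ 2 = S ∧ ∑ j, u j * v j = 0 ∧
    ∀ j, ∀ a b : ℝ, 0 ≤ a → a ≤ 1 → 0 ≤ b → b ≤ 1 →
      0 ≤ p j + a * u j + b * v j ∧ p j + a * u j + b * v j ≤ 1

theorem good_three : Good 3 (1 + 1 / 8) := by
  refine ⟨![1, 1 / 4, 1 / 4], ![0, 3 / 4, -3 / 4], ![0, 0, 3 / 4], ?_, ?_, ?_, ?_⟩
  · simp [Fin.sum_univ_three]; norm_num
  · simp [Fin.sum_univ_three]; norm_num
  · simp [Fin.sum_univ_three]; norm_num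
  · intro j a b ha ha' hb hb'
    fin_cases j
    · simp; exact ⟨ha, ha'⟩
    · simp; constructor <;> linarith
    · simp; constructor <;> linarith

theorem good_step {N : ℕ} {S : ℝ} (h : Good N S) : Good (N + 2) (S + 1) := by
  obtain ⟨u, v, p, hu, hv, huv, hp⟩ := h
  refine ⟨Fin.cons 1 (Fin.cons 0 u), Fin.cons 0 (Fin.cons 1 v), Fin.cons 0 (Fin.cons 0 p),
    ?_, ?_, ?_, ?_⟩
  · simp [Fin.sum_univ_succ, hu]; ring
  · simp [Fin.sum_univ_succ, hv]; ring
  · simp [Fin.sum_univ_succ, huv]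
  · intro j a b ha ha' hb hb'
    refine Fin.cases ?_ (fun j => ?_) j
    · simp; exact ⟨ha, ha'⟩
    · refine Fin.cases ?_ (fun j => ?_) j
      · simp; exact ⟨hb, hb'⟩
      · simpa using hp j a b ha ha' hb hb'

theorem good_all : ∀ n : ℕ, Good (2 * (n + 1) + 1) ((n + 1 : ℕ) + 1 / 8) := by
  intro n
  induction n with
  | zero => simpa using good_three
  | succ n ih =>
    have := good_step ih
    have e : (((n + 1 + 1 : ℕ) : ℝ) + 1 / 8) = ((n + 1 : ℕ) : ℝ) + 1 / 8 + 1 := by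
      push_cast
      ring
    rw [e]
    exact this

/-- From the data to a square. -/
theorem good_mem {N : ℕ} {S : ℝ} (hS : 0 < S) (h : Good N S) : Real.sqrt S ∈ edges 2 N := by
  obtain ⟨u, v, p, hu, hv, huv, hp⟩ := h
  set s := Real.sqrt S with hs
  have hs0 : 0 < s := Real.sqrt_pos.mpr hS
  have hs2 : s ^ 2 = S := Real.sq_sqrt hS.le
  set a : EuclideanSpace ℝ (Fin N) := WithLp.toLp 2 u with ha
  set b : EuclideanSpace ℝ (Fin N) := WithLp.toLp 2 v with hb
  have haj : ∀ j, a j = u j := fun _ => rfl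
  have hbj : ∀ j, b j = v j := fun _ => rfl
  have han : ‖a‖ ^ 2 = S := by
    rw [EuclideanSpace.norm_sq_eq, ← hu]
    simp [haj]
  have hbn : ‖b‖ ^ 2 = S := by
    rw [EuclideanSpace.norm_sq_eq, ← hv]
    simp [hbj]
  have hab : inner ℝ a b = 0 := by
    rw [← huv, PiLp.inner_apply]
    refine Finset.sum_congr rfl fun j _ => ?_
    simp [haj, hbj, mul_comm]
  let L : EuclideanSpace ℝ (Fin 2) →ₗ[ℝ] EuclideanSpace ℝ (Fin N) :=
    { toFun := fun x => (x 0 / s) • a + (x 1 / s) • b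
      map_add' := by
        intro x y
        simp only [PiLp.add_apply, add_div, add_smul]
        abel
      map_smul' := by
        intro c x
        simp only [PiLp.smul_apply, smul_eq_mul, RingHom.id_apply, smul_add, smul_smul, mul_div_assoc] }
  have hLapp : ∀ x, L x = (x 0 / s) • a + (x 1 / s) • b := fun _ => rfl
  have hnorm : ∀ x, ‖L x‖ = ‖x‖ := by
    intro x
    have h1 : ‖L x‖ ^ 2 = ‖x‖ ^ 2 := by
      rw [hLapp, norm_add_sq_real, inner_smul_left, inner_smul_right, hab, norm_smul, norm_smul,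
        mul_pow, mul_pow, han, hbn, EuclideanSpace.norm_sq_eq, Fin.sum_univ_two, ← hs2]
      simp only [Real.norm_eq_abs, sq_abs]
      field_simp
      simp
      ring
    exact (pow_left_inj₀ (norm_nonneg _) (norm_nonneg _) (by norm_num)).mp h1
  let Li : EuclideanSpace ℝ (Fin 2) →ₗᵢ[ℝ] EuclideanSpace ℝ (Fin N) := ⟨L, hnorm⟩
  let P : EuclideanSpace ℝ (Fin N) := WithLp.toLp 2 p
  let φ : EuclideanSpace ℝ (Fin 2) →ᵃⁱ[ℝ] EuclideanSpace ℝ (Fin N) :=
    { toFun := fun x => L x + P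
      linear := L
      map_vadd' := by
        intro x y
        simp [add_assoc]
      norm_map := hnorm }
  refine ⟨hs0.le, _, ⟨φ, rfl⟩, ?_⟩
  rintro _ ⟨x, hx, rfl⟩ j
  have e : φ x j = p j + (x 0 / s) * u j + (x 1 / s) * v j := by
    show (L x + P) j = _
    rw [hLapp]
    simp only [PiLp.add_apply, PiLp.smul_apply, smul_eq_mul, haj, hbj]
    show _ + p j = _
    ring
  rw [e]
  have hx0 := hx 0
  have hx1 := hx 1
  exact hp j _ _ (div_nonneg hx0.1 hs0.le) ((div_le_one hs0).mpr hx0.2)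
    (div_nonneg hx1.1 hs0.le) ((div_le_one hs0).mpr hx1.2)

/-- **Theorem.** For every `n ≥ 1` the largest side of a square contained in the unit cube
`[0, 1] ^ (2 n + 1)` is `√((8 n + 1) / 8)`: a square with this side fits, no larger one does, and so
`f(2, 2 n + 1) = √((8 n + 1) / 8)`. -/
theorem result (n : ℕ) (hn : 1 ≤ n) :
    IsGreatest (edges 2 (2 * n + 1)) (Real.sqrt ((8 * n + 1) / 8)) ∧
      f 2 (2 * n + 1) = Real.sqrt ((8 * n + 1) / 8) := by
  obtain ⟨k, rfl⟩ : ∃ k, n = k + 1 := ⟨n - 1, by omega⟩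
  have h : IsGreatest (edges 2 (2 * (k + 1) + 1)) (Real.sqrt ((8 * (k + 1 : ℕ) + 1) / 8)) := by
    refine ⟨?_, fun s hs => upper (k + 1) hs⟩
    have := good_mem (by positivity) (good_all k)
    convert this using 2
    push_cast
    ring
  exact ⟨h, h.csSup_eq⟩

end Pool.Agent.Results.MP_befaea_co.OddSquare
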